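import Pool.Agent.Lib.MP_d0f9e0_co.CS26

set_option autoImplicit false

/-!
AN9/Strip (helper9, Project Z, MP_d0f9e0_co): residue lemma for a closed vertical strip, with finite
limits of the function at both ends of the strip (no integrability of the single lines needed).
-/

open Complex MeasureTheory Filter Topology Set

namespace Pool.MP_d0f9e0_co.AN9

open Pool.MP_d0f9e0_co.CS

/-- `φ` tends to `L` uniformly in the strip `a ≤ Re z ≤ b` when `s * Im z → +∞`
(`s = 1`: upper end, `s = -1`: lower end). -/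
def Lim (φ : ℂ → ℂ) (a b s : ℝ) (L : ℂ) : Prop :=
  ∀ ε : ℝ, 0 < ε → ∃ Y : ℝ, ∀ x y : ℝ, a ≤ x → x ≤ b → Y ≤ y →
    ‖φ (x + ((s * y : ℝ) : ℂ) * I) - L‖ ≤ ε

theorem Lim.add {φ ψ : ℂ → ℂ} {a b s : ℝ} {L M : ℂ} (h1 : Lim φ a b s L) (h2 : Lim ψ a b s M) :
    Lim (fun z => φ z + ψ z) a b s (L + M) := by
  intro ε hε
  obtain ⟨Y1, hY1⟩ := h1 (ε / 2) (by linarith)
  obtain ⟨Y2, hY2⟩ := h2 (ε / 2) (by linarith)
  refine ⟨max Y1 Y2, fun x y hx1 hx2 hy => ?_⟩
  have e1 := hY1 x y hx1 hx2 (le_trans (le_max_left _ _) hy)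
  have e2 := hY2 x y hx1 hx2 (le_trans (le_max_right _ _) hy)
  have e3 : φ (x + ((s * y : ℝ) : ℂ) * I) + ψ (x + ((s * y : ℝ) : ℂ) * I) - (L + M) =
      (φ (x + ((s * y : ℝ) : ℂ) * I) - L) + (ψ (x + ((s * y : ℝ) : ℂ) * I) - M) := by ring
  simp only [e3]
  linarith [norm_add_le (φ (x + ((s * y : ℝ) : ℂ) * I) - L) (ψ (x + ((s * y : ℝ) : ℂ) * I) - M)]

theorem Lim.congr {φ ψ : ℂ → ℂ} {a b s : ℝ} {L : ℂ} (h : Lim φ a b s L) (Y : ℝ)
    (he : ∀ x y : ℝ, a ≤ x → x ≤ b → Y ≤ y →
      ψ (x + ((s * y : ℝ) : ℂ) * I) = φ (x + ((s * y : ℝ) : ℂ) * I)) : Lim ψ a b s L := by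
  intro ε hε
  obtain ⟨Y1, hY1⟩ := h ε hε
  refine ⟨max Y1 Y, fun x y hx1 hx2 hy => ?_⟩
  rw [he x y hx1 hx2 (le_trans (le_max_right _ _) hy)]
  exact hY1 x y hx1 hx2 (le_trans (le_max_left _ _) hy)

/-- Integral over a horizontal side far away. -/
theorem Lim.hor_tendsto {φ : ℂ → ℂ} {a b s Y0 : ℝ} {L : ℂ} (hab : a ≤ b) (h : Lim φ a b s L)
    (hc : ∀ y : ℝ, Y0 ≤ y →
      IntervalIntegrable (fun x : ℝ => φ (x + ((s * y : ℝ) : ℂ) * I)) volume a b) :
    Tendsto (fun R : ℝ => ∫ x in a..b, φ (x + ((s * R : ℝ) : ℂ) * I)) atTop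
      (𝓝 (((b - a : ℝ) : ℂ) * L)) := by
  rw [Metric.tendsto_atTop]
  intro ε hε
  have hb1 : 0 < b - a + 1 := by linarith
  obtain ⟨Y, hY⟩ := h (ε / (2 * (b - a + 1))) (by positivity)
  refine ⟨max Y Y0, fun R hR => ?_⟩
  have hRY : Y ≤ R := le_trans (le_max_left _ _) hR
  have hR0 : Y0 ≤ R := le_trans (le_max_right _ _) hR
  have e1 : (∫ x in a..b, φ (x + ((s * R : ℝ) : ℂ) * I)) - ((b - a : ℝ) : ℂ) * L =
      ∫ x in a..b, (φ (x + ((s * R : ℝ) : ℂ) * I) - L) := by
    rw [intervalIntegral.integral_sub (hc R hR0) (by simp), intervalIntegral.integral_const]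
    simp
  rw [dist_eq_norm, e1]
  have h2 : ‖∫ x in a..b, (φ (x + ((s * R : ℝ) : ℂ) * I) - L)‖ ≤
      ε / (2 * (b - a + 1)) * |b - a| := by
    refine intervalIntegral.norm_integral_le_of_norm_le_const fun x hx => ?_
    rw [uIoc_of_le hab] at hx
    exact hY x R hx.1.le hx.2 hRY
  refine lt_of_le_of_lt h2 ?_
  rw [abs_of_nonneg (by linarith : (0:ℝ) ≤ b - a), div_mul_eq_mul_div, div_lt_iff₀ (by positivity)]
  nlinarith

/-- Continuity along a vertical line. -/
theorem cont_vert {φ : ℂ → ℂ} {x : ℝ} (h : ∀ z : ℂ, z.re = x → DifferentiableAt ℂ φ z) :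
    Continuous fun y : ℝ => φ (x + y * I) := by
  rw [continuous_iff_continuousAt]
  intro y
  have h1 : ContinuousAt φ ((x : ℂ) + y * I) := (h _ (by simp)).continuousAt
  exact ContinuousAt.comp (f := fun y : ℝ => (x : ℂ) + y * I) h1 (by fun_prop)

/-- Holomorphic function near a closed strip, limits at both ends. -/
theorem strip_hol {φ : ℂ → ℂ} {a b : ℝ} (hab : a ≤ b) {Lp Lm : ℂ}
    (hd : ∀ z : ℂ, a ≤ z.re → z.re ≤ b → DifferentiableAt ℂ φ z)
    (hp : Lim φ a b 1 Lp) (hm : Lim φ a b (-1) Lm) :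
    Tendsto (fun R : ℝ => I * ∫ y in (-R)..R, (φ (b + y * I) - φ (a + y * I))) atTop
      (𝓝 (((b - a : ℝ) : ℂ) * (Lp - Lm))) := by
  have hcb : Continuous fun y : ℝ => φ (b + y * I) :=
    cont_vert fun z hz => hd z (by rw [hz]; exact hab) (by rw [hz])
  have hca : Continuous fun y : ℝ => φ (a + y * I) :=
    cont_vert fun z hz => hd z (by rw [hz]) (by rw [hz]; exact hab)
  have hhc : ∀ y : ℝ, ContinuousOn (fun x : ℝ => φ (x + (y : ℂ) * I)) (Icc a b) := by
    intro y x hx
    have h1 : ContinuousAt φ ((x : ℂ) + y * I) :=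
      (hd _ (by simpa using hx.1) (by simpa using hx.2)).continuousAt
    exact (ContinuousAt.comp (f := fun x : ℝ => (x : ℂ) + y * I) h1
      (by fun_prop)).continuousWithinAt
  have hhi : ∀ s y : ℝ, (0:ℝ) ≤ y →
      IntervalIntegrable (fun x : ℝ => φ (x + ((s * y : ℝ) : ℂ) * I)) volume a b := by
    intro s y _
    exact ((hhc (s * y)).intervalIntegrable_of_Icc hab)
  have t1 := hp.hor_tendsto hab (hhi 1)
  have t2 := hm.hor_tendsto hab (hhi (-1))
  have hrect : ∀ R : ℝ, I * (∫ y in (-R)..R, (φ (b + y * I) - φ (a + y * I))) =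
      (∫ x in a..b, φ (x + ((1 * R : ℝ) : ℂ) * I)) - ∫ x in a..b, φ (x + ((-1 * R : ℝ) : ℂ) * I) := by
    intro R
    have h1 := integral_boundary_rect_eq_zero_of_differentiableOn φ ⟨a, -R⟩ ⟨b, R⟩ (by
      intro z hz
      rw [mem_reProdIm] at hz
      have h2 := hz.1
      rw [uIcc_of_le hab] at h2
      exact (hd z h2.1 h2.2).differentiableWithinAt)
    rw [intervalIntegral.integral_sub (hcb.intervalIntegrable _ _) (hca.intervalIntegrable _ _)]
    simp only [smul_eq_mul] at h1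
    rw [mul_sub, one_mul, neg_one_mul]
    push_cast at h1 ⊢
    linear_combination h1
  have t3 := t1.sub t2
  rw [← mul_sub] at t3
  exact t3.congr fun R => (hrect R).symm

/-- `φ` has (at most) a simple pole at `x` with residue `r`. -/
def SPole (φ : ℂ → ℂ) (x r : ℂ) : Prop :=
  ∃ g : ℂ → ℂ, AnalyticAt ℂ g x ∧ g x = r ∧ ∀ᶠ z in 𝓝[≠] x, φ z * (z - x) = g z

/-- The Gaussian correction at the point `x`. -/
noncomputable def gss (x : ℝ) (z : ℂ) : ℂ := cexp ((z - x) ^ 2) / (z - x)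

theorem gss_diff {x : ℝ} {z : ℂ} (h : z ≠ x) : DifferentiableAt ℂ (gss x) z := by
  unfold gss
  refine DifferentiableAt.div (by fun_prop) (by fun_prop) ?_
  exact sub_ne_zero.mpr h

theorem gss_lim (x : ℝ) {a b s : ℝ} (hs : |s| = 1) : Lim (gss x) a b s 0 := by
  intro ε hε
  have hB : ∃ B : ℝ, ∀ t : ℝ, a ≤ t → t ≤ b → (t - x) ^ 2 ≤ B := by
    refine ⟨(|a - x| + |b - x|) ^ 2, fun t h1 h2 => ?_⟩
    rw [← sq_abs (t - x)]
    have h3 : |t - x| ≤ |a - x| + |b - x| := by
      rw [abs_le]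
      constructor
      · have := neg_abs_le (a - x); have := abs_nonneg (b - x); linarith
      · have := le_abs_self (b - x); have := abs_nonneg (a - x); linarith
    have := abs_nonneg (t - x)
    nlinarith
  obtain ⟨B, hB⟩ := hB
  have ht : Tendsto (fun y : ℝ => Real.exp (B - y)) atTop (𝓝 0) := by
    refine Real.tendsto_exp_atBot.comp ?_
    exact tendsto_atBot_add_const_left _ B tendsto_neg_atTop_atBot
  obtain ⟨Y, hY⟩ := (ht.eventually (gt_mem_nhds hε)).exists_forall_of_atTop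
  refine ⟨max Y 1, fun t y h1 h2 h3 => ?_⟩
  have hy1 : 1 ≤ y := le_trans (le_max_right _ _) h3
  have hyY := hY y (le_trans (le_max_left _ _) h3)
  rw [sub_zero]
  unfold gss
  have e1 : (t : ℂ) + ((s * y : ℝ) : ℂ) * I - x = ((t - x : ℝ) : ℂ) + ((s * y : ℝ) : ℂ) * I := by
    push_cast; ring
  rw [e1, norm_div, Complex.norm_exp]
  have e2 : ((((t - x : ℝ) : ℂ) + ((s * y : ℝ) : ℂ) * I) ^ 2).re = (t - x) ^ 2 - (s * y) ^ 2 := by
    simp [pow_two]
  have h5 : (s * y) ^ 2 = y ^ 2 := by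
    rw [mul_pow, ← sq_abs s, hs]; ring
  have h4 : 1 ≤ ‖((t - x : ℝ) : ℂ) + ((s * y : ℝ) : ℂ) * I‖ := by
    have h6 := abs_im_le_norm (((t - x : ℝ) : ℂ) + ((s * y : ℝ) : ℂ) * I)
    have h7 : (((t - x : ℝ) : ℂ) + ((s * y : ℝ) : ℂ) * I).im = s * y := by simp
    rw [h7, abs_mul, hs, one_mul, abs_of_nonneg (by linarith : (0:ℝ) ≤ y)] at h6
    linarith
  rw [e2, h5]
  refine (div_le_self (Real.exp_pos _).le h4).trans (le_trans (Real.exp_le_exp.mpr ?_) hyY.le)
  have := hB t h1 h2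
  nlinarith

theorem lim_sub_gss {φ ψ : ℂ → ℂ} {a b s x : ℝ} {L r : ℂ} (h : Lim φ a b s L) (hs : |s| = 1)
    (hψ : ∀ z : ℂ, z ≠ x → ψ z = φ z - r * gss x z) : Lim ψ a b s L := by
  have h1 : Lim (fun z => -r * gss x z) a b s 0 := by
    intro ε hε
    have hr : 0 < ‖r‖ + 1 := by positivity
    obtain ⟨Y, hY⟩ := gss_lim x (a := a) (b := b) hs (ε / (‖r‖ + 1)) (by positivity)
    refine ⟨Y, fun t y h1 h2 h3 => ?_⟩
    have h4 := hY t y h1 h2 h3
    rw [sub_zero] at h4 ⊢
    rw [norm_mul, norm_neg]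
    have h5 : ‖r‖ * ‖gss x (t + ((s * y : ℝ) : ℂ) * I)‖ ≤ (‖r‖ + 1) * (ε / (‖r‖ + 1)) :=
      mul_le_mul (by linarith) h4 (norm_nonneg _) hr.le
    rw [mul_div_cancel₀ _ hr.ne'] at h5
    exact h5
  have h2 := h.add h1
  rw [add_zero] at h2
  refine h2.congr 1 fun t y _ _ hy => ?_
  rw [hψ]
  · ring
  · intro h0
    have h3 := congrArg im h0
    simp at h3
    rcases h3 with h3 | h3
    · rw [h3] at hs; simp at hs
    · linarith

/-- Both vertical integrals of the Gaussian correction. -/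
theorem gss_tendsto {x a b : ℝ} (ha : a < x) (hb : x < b) :
    Tendsto (fun R : ℝ => I * ∫ y in (-R)..R, (gss x (b + y * I) - gss x (a + y * I))) atTop
      (𝓝 (2 * Real.pi * I)) := by
  have hint : ∀ t : ℝ, t ≠ x → Integrable fun y : ℝ => gss x (t + y * I) := by
    intro t ht
    have h1 : Continuous fun y : ℝ => gss x (t + y * I) :=
      cont_vert fun z hz => gss_diff (by rintro rfl; simp at hz; exact ht hz.symm)
    have hrescale : Integrable fun y : ℝ => Real.exp ((t - x) ^ 2) / |t - x| *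
        Real.exp (-1 * y ^ 2) :=
      (integrable_exp_neg_mul_sq (by norm_num : (0:ℝ) < 1)).const_mul _
    refine hrescale.mono' h1.aestronglyMeasurable (Eventually.of_forall fun y => ?_)
    unfold gss
    have e1 : (t : ℂ) + (y : ℂ) * I - x = ((t - x : ℝ) : ℂ) + (y : ℂ) * I := by
      push_cast; ring
    rw [e1, norm_div, Complex.norm_exp]
    have e2 : ((((t - x : ℝ) : ℂ) + (y : ℂ) * I) ^ 2).re = (t - x) ^ 2 - y ^ 2 := by
      simp [pow_two]
    have h4 : |t - x| ≤ ‖((t - x : ℝ) : ℂ) + (y : ℂ) * I‖ := by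
      have h6 := abs_re_le_norm (((t - x : ℝ) : ℂ) + (y : ℂ) * I)
      simpa using h6
    have h5 : 0 < |t - x| := abs_pos.mpr (sub_ne_zero.mpr ht)
    rw [e2, div_mul_eq_mul_div, ← Real.exp_add]
    have e3 : (t - x) ^ 2 - y ^ 2 = (t - x) ^ 2 + -1 * y ^ 2 := by ring
    rw [e3]
    exact div_le_div_of_nonneg_left (Real.exp_pos _).le h5 h4
  have hval : ∀ t : ℝ, ∫ y : ℝ, gss x (t + y * I) =
      ∫ y : ℝ, cexp ((((t - x : ℝ) : ℂ) + y * I) ^ 2) / (((t - x : ℝ) : ℂ) + y * I) := by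
    intro t
    refine integral_congr_ae (Eventually.of_forall fun y => ?_)
    simp only [gss]
    have e1 : (t : ℂ) + (y : ℂ) * I - x = ((t - x : ℝ) : ℂ) + (y : ℂ) * I := by
      push_cast; ring
    rw [e1]
  have hI := (hint b hb.ne').sub (hint a ha.ne)
  have h1 := (intervalIntegral_tendsto_integral hI tendsto_neg_atTop_atBot tendsto_id).const_mul I
  have h2 : I * ∫ y : ℝ, ((fun y : ℝ => gss x (b + y * I)) - fun y : ℝ => gss x (a + y * I)) y =
      2 * Real.pi * I := by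
    simp only [Pi.sub_apply]
    rw [integral_sub (hint b hb.ne') (hint a ha.ne), hval, hval,
      gauss_right (by linarith), gauss_left (by linarith)]
    ring
  rw [h2] at h1
  exact h1

/-- **Residue lemma for a strip**, limits at both ends. -/
theorem strip_residue {a b : ℝ} (hab : a ≤ b) {Lp Lm : ℂ} (r : ℝ → ℂ) (Zs : Finset ℝ) :
    ∀ φ : ℂ → ℂ, (∀ x ∈ Zs, a < x ∧ x < b) →
      (∀ z : ℂ, a ≤ z.re → z.re ≤ b → (∀ x ∈ Zs, z ≠ (x : ℝ)) → DifferentiableAt ℂ φ z) →
      (∀ x ∈ Zs, SPole φ (x : ℝ) (r x)) →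
      Lim φ a b 1 Lp → Lim φ a b (-1) Lm →
      Tendsto (fun R : ℝ => I * ∫ y in (-R)..R, (φ (b + y * I) - φ (a + y * I))) atTop
        (𝓝 (2 * Real.pi * I * (∑ x ∈ Zs, r x) + ((b - a : ℝ) : ℂ) * (Lp - Lm))) := by
  classical
  induction Zs using Finset.induction_on with
  | empty =>
    intro φ _ hd _ hp hm
    simpa using strip_hol hab (fun z h1 h2 => hd z h1 h2 (by simp)) hp hm
  | insert x Zs hx ih =>
    intro φ hZ hd hs hp hm
    have hxab := hZ x (Finset.mem_insert_self _ _)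
    obtain ⟨g, hga, hgx, hge⟩ := hs x (Finset.mem_insert_self _ _)
    set k : ℂ → ℂ := fun z => g z - r x * cexp ((z - x) ^ 2) with hk
    have hk0 : k x = 0 := by simp [hk, hgx]
    have hka : AnalyticAt ℂ k x := by
      refine hga.sub ?_
      refine analyticAt_const.mul ?_
      exact (((analyticAt_id.sub analyticAt_const).pow 2).cexp)
    set ψ : ℂ → ℂ := fun z => if z = x then deriv k x else φ z - r x * gss x z with hψ
    have hψx : ∀ z : ℂ, z ≠ x → ψ z = φ z - r x * gss x z := fun z hz => by simp [hψ, hz]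
    -- holomorphy at x
    have hdx : DifferentiableAt ℂ ψ x := by
      have hS : {z : ℂ | AnalyticAt ℂ k z} ∈ 𝓝 (x : ℂ) := (isOpen_analyticAt ℂ k).mem_nhds hka
      have h3 : DifferentiableOn ℂ k {z : ℂ | AnalyticAt ℂ k z} :=
        fun z hz => (AnalyticAt.differentiableAt hz).differentiableWithinAt
      have h4 : DifferentiableAt ℂ (dslope k x) x :=
        ((differentiableOn_dslope hS).mpr h3).differentiableAt hS
      refine h4.congr_of_eventuallyEq ?_
      have h5 : ∀ᶠ z in 𝓝[≠] (x : ℂ), ψ z = dslope k x z := by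
        filter_upwards [hge, self_mem_nhdsWithin] with z hz hzx
        have hzx' : z ≠ x := hzx
        have hz0 : z - x ≠ 0 := sub_ne_zero.mpr hzx'
        rw [hψx z hzx', dslope_of_ne _ hzx', slope_def_field, hk0, sub_zero]
        simp only [hk, gss]
        rw [← hz]
        field_simp
      have h6 : ψ x = dslope k x x := by simp [hψ, dslope_same]
      rw [Filter.EventuallyEq, ← nhdsNE_sup_pure, Filter.eventually_sup]
      exact ⟨h5, by simpa using h6⟩
    have hdψ : ∀ z : ℂ, z ≠ x → DifferentiableAt ℂ φ z → DifferentiableAt ℂ ψ z := by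
      intro z hz h1
      have h2 : DifferentiableAt ℂ (fun z => φ z - r x * gss x z) z :=
        h1.sub ((gss_diff hz).const_mul _)
      refine h2.congr_of_eventuallyEq ?_
      filter_upwards [isOpen_ne.mem_nhds hz] with w hw using hψx w hw
    have key := ih ψ (fun t ht => hZ t (Finset.mem_insert_of_mem ht)) (fun z h1 h2 h3 => by
        rcases eq_or_ne z x with rfl | hz
        · exact hdx
        · refine hdψ z hz (hd z h1 h2 fun t ht => ?_)
          rcases Finset.mem_insert.mp ht with rfl | ht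
          · exact hz
          · exact h3 t ht) (fun t ht => by
        obtain ⟨g', hga', hgx', hge'⟩ := hs t (Finset.mem_insert_of_mem ht)
        have htx : (t : ℂ) ≠ x := by
          intro h
          have : t = x := by exact_mod_cast h
          exact hx (this ▸ ht)
        refine ⟨fun z => g' z - r x * gss x z * (z - t), ?_, by simp [hgx'], ?_⟩
        · refine hga'.sub ?_
          refine AnalyticAt.mul (AnalyticAt.mul analyticAt_const ?_)
            (analyticAt_id.sub analyticAt_const)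
          unfold gss
          refine AnalyticAt.div (((analyticAt_id.sub analyticAt_const).pow 2).cexp)
            (analyticAt_id.sub analyticAt_const) ?_
          simpa using sub_ne_zero.mpr htx
        · have h7 : ∀ᶠ z : ℂ in 𝓝[≠] (t : ℂ), z ≠ (x : ℂ) :=
            mem_nhdsWithin_of_mem_nhds (isOpen_ne.mem_nhds htx)
          filter_upwards [hge', h7] with z hz hzx
          rw [hψx z hzx, sub_mul, hz]) ?_ ?_
    · rw [Finset.sum_insert hx]
      have h8 := (gss_tendsto hxab.1 hxab.2).const_mul (r x)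
      have h9 := key.add h8
      have e1 : 2 * Real.pi * I * (∑ x ∈ Zs, r x) + ((b - a : ℝ) : ℂ) * (Lp - Lm) +
          r x * (2 * Real.pi * I) =
          2 * Real.pi * I * (r x + ∑ x ∈ Zs, r x) + ((b - a : ℝ) : ℂ) * (Lp - Lm) := by ring
      rw [e1] at h9
      refine h9.congr fun R => ?_
      have hre : ∀ t y : ℝ, ((t : ℂ) + y * I).re = t := by intro t y; simp
      have hnx : ∀ t y : ℝ, t ≠ x → (t : ℂ) + y * I ≠ x := by
        intro t y ht h
        have := congrArg re h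
        simp at this
        exact ht this
      have hca : Continuous fun y : ℝ => ψ (a + y * I) := cont_vert fun z hz => by
        refine hdψ z (by rintro rfl; simp at hz; linarith [hxab.1]) (hd z (by rw [hz])
          (by rw [hz]; exact hab) fun t ht => ?_)
        rintro rfl
        have := (hZ t ht).1
        simp at hz
        linarith
      have hcb : Continuous fun y : ℝ => ψ (b + y * I) := cont_vert fun z hz => by
        refine hdψ z (by rintro rfl; simp at hz; linarith [hxab.2]) (hd z (by rw [hz]; exact hab)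
          (by rw [hz]) fun t ht => ?_)
        rintro rfl
        have := (hZ t ht).2
        simp at hz
        linarith
      have hga : Continuous fun y : ℝ => gss x (a + y * I) :=
        cont_vert fun z hz => gss_diff (by rintro rfl; simp at hz; linarith [hxab.1])
      have hgb : Continuous fun y : ℝ => gss x (b + y * I) :=
        cont_vert fun z hz => gss_diff (by rintro rfl; simp at hz; linarith [hxab.2])
      have e2 : ∀ y : ℝ, φ (b + y * I) - φ (a + y * I) =
          (ψ (b + y * I) - ψ (a + y * I)) + r x * (gss x (b + y * I) - gss x (a + y * I)) := by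
        intro y
        rw [hψx _ (hnx b y hxab.2.ne'), hψx _ (hnx a y hxab.1.ne)]
        ring
      simp_rw [e2]
      have e3 : (∫ y in (-R)..R, ((ψ (b + y * I) - ψ (a + y * I)) +
          r x * (gss x (b + y * I) - gss x (a + y * I)))) =
          (∫ y in (-R)..R, (ψ (b + y * I) - ψ (a + y * I))) +
          ∫ y in (-R)..R, r x * (gss x (b + y * I) - gss x (a + y * I)) :=
        intervalIntegral.integral_add ((hcb.sub hca).intervalIntegrable _ _)
          ((continuous_const.mul (hgb.sub hga)).intervalIntegrable _ _)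
      rw [e3, intervalIntegral.integral_const_mul]
      ring
    · exact lim_sub_gss hp (by simp) hψx
    · exact lim_sub_gss hm (by simp) hψx

/-! ### The kernel `1 / (1 - e(α z + θ))` -/

/-- The poles of `1 / (1 - e(α z + θ))` in the strip are `(j - θ) / α`, `j` in this set. -/
noncomputable def poleSet (a b α θ : ℝ) : Finset ℤ := Finset.Ioo ⌊α * a + θ⌋ ⌈α * b + θ⌉

theorem mem_poleSet {a b α θ : ℝ} {j : ℤ} : j ∈ poleSet a b α θ ↔ α * a + θ < j ∧ (j : ℝ) < α * b + θ := by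
  unfold poleSet
  rw [Finset.mem_Ioo, Int.floor_lt, Int.lt_ceil]

theorem pole_mem {a b α θ : ℝ} (hα : 0 < α) {j : ℤ} :
    j ∈ poleSet a b α θ ↔ a < (j - θ) / α ∧ (j - θ) / α < b := by
  rw [mem_poleSet, lt_div_iff₀ hα, div_lt_iff₀ hα]
  constructor
  · rintro ⟨h1, h2⟩
    constructor <;> linarith
  · rintro ⟨h1, h2⟩
    constructor <;> linarith

/-- `φ(z) = f(z) / (1 - e(α z + θ))`. -/
noncomputable def kq (f : ℂ → ℂ) (α θ : ℝ) (z : ℂ) : ℂ := f z / (1 - ee (α * z + θ))

theorem kq_ne {α θ : ℝ} (hα : 0 < α) {z : ℂ} (h : ∀ n : ℤ, z ≠ (((n - θ) / α : ℝ) : ℂ)) :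
    1 - ee (α * z + θ) ≠ 0 := by
  intro h0
  obtain ⟨n, hn⟩ := ee_eq_one (sub_eq_zero.mp h0).symm
  refine h n ?_
  have hα' : (α : ℂ) ≠ 0 := by exact_mod_cast hα.ne'
  push_cast
  rw [eq_div_iff hα']
  linear_combination hn

theorem kq_diff {f : ℂ → ℂ} {α θ : ℝ} (hα : 0 < α) {z : ℂ} (hf : DifferentiableAt ℂ f z)
    (h : ∀ n : ℤ, z ≠ (((n - θ) / α : ℝ) : ℂ)) : DifferentiableAt ℂ (kq f α θ) z := by
  unfold kq
  refine hf.div ?_ (kq_ne hα h)
  refine (differentiableAt_const _).sub ?_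
  exact (ee_differentiable _).comp z (by fun_prop)

theorem kq_spole {f : ℂ → ℂ} {α θ : ℝ} (hα : 0 < α) {n : ℤ}
    (hf : AnalyticAt ℂ f (((n - θ) / α : ℝ) : ℂ)) :
    SPole (kq f α θ) (((n - θ) / α : ℝ) : ℂ)
      (-(f (((n - θ) / α : ℝ) : ℂ)) / (α * (2 * Real.pi * I))) := by
  set x : ℂ := (((n - θ) / α : ℝ) : ℂ) with hx
  have hα' : (α : ℂ) ≠ 0 := by exact_mod_cast hα.ne'
  have hpi : (2 * Real.pi * I : ℂ) ≠ 0 := by simp [Real.pi_ne_zero, I_ne_zero]
  have hpp : AnalyticAt ℂ (fun z : ℂ => pp (α * (z - x))) x :=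
    (Differentiable.analyticAt (pp_differentiable.comp (by fun_prop : Differentiable ℂ
      fun z : ℂ => (α : ℂ) * (z - x))) x)
  refine ⟨fun z => -(f z) / (α * pp (α * (z - x))), ?_, ?_, ?_⟩
  · refine hf.neg.div (analyticAt_const.mul hpp) ?_
    simp only [sub_self, mul_zero, pp_zero]
    exact mul_ne_zero hα' hpi
  · simp only [sub_self, mul_zero, pp_zero]
  · have hxx : (α : ℂ) * x + θ = n := by
      rw [hx]; push_cast; field_simp; ring
    have h1 : ∀ z : ℂ, ee (α * z + θ) = ee (α * (z - x)) := by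
      intro z
      have e1 : (α : ℂ) * z + θ = α * (z - x) + n := by rw [← hxx]; ring
      rw [e1, ee_add_int]
    have h2 : ∀ᶠ z : ℂ in 𝓝[≠] x, pp (α * (z - x)) ≠ 0 := by
      have h3 : ContinuousAt (fun z : ℂ => pp (α * (z - x))) x := hpp.continuousAt
      have h4 : pp (α * (x - x)) ≠ 0 := by simp only [sub_self, mul_zero, pp_zero]; exact hpi
      exact mem_nhdsWithin_of_mem_nhds (h3.eventually_ne h4)
    filter_upwards [h2, self_mem_nhdsWithin] with z hz hzx
    have hzx' : z - x ≠ 0 := sub_ne_zero.mpr hzx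
    unfold kq
    have h5 := mul_pp (α * (z - x))
    rw [h1 z]
    have h6 : 1 - ee (α * (z - x)) = -(α * (z - x) * pp (α * (z - x))) := by rw [h5]; ring
    rw [h6]
    field_simp

/-- **Residue lemma for `f / (1 - e(α z + θ))` in a strip.** -/
theorem strip_ee {f : ℂ → ℂ} {a b α θ : ℝ} (hab : a ≤ b) (hα : 0 < α)
    (ha : ∀ n : ℤ, α * a + θ ≠ n) (hb : ∀ n : ℤ, α * b + θ ≠ n)
    (hf : ∀ z : ℂ, a ≤ z.re → z.re ≤ b → DifferentiableAt ℂ f z) {Lp Lm : ℂ}
    (hp : Lim (kq f α θ) a b 1 Lp) (hm : Lim (kq f α θ) a b (-1) Lm) :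
    Tendsto (fun R : ℝ => I * ∫ y in (-R)..R,
        (kq f α θ (b + y * I) - kq f α θ (a + y * I))) atTop
      (𝓝 (-(1 / α : ℂ) * (∑ j ∈ poleSet a b α θ, f (((j - θ) / α : ℝ) : ℂ)) +
        ((b - a : ℝ) : ℂ) * (Lp - Lm))) := by
  classical
  have hinj : Set.InjOn (fun j : ℤ => ((j : ℝ) - θ) / α) (poleSet a b α θ : Set ℤ) := by
    intro i _ j _ h
    simp only at h
    have h1 : (i : ℝ) - θ = j - θ := by
      rw [div_eq_div_iff hα.ne' hα.ne'] at h
      exact mul_right_cancel₀ hα.ne' h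
    have h2 : (i : ℝ) = j := by linarith
    exact_mod_cast h2
  have key := strip_residue hab (Lp := Lp) (Lm := Lm)
    (fun x => -(f (x : ℂ)) / (α * (2 * Real.pi * I)))
    ((poleSet a b α θ).image fun j : ℤ => ((j : ℝ) - θ) / α) (kq f α θ) ?_ ?_ ?_ hp hm
  · rw [Finset.sum_image hinj] at key
    have e1 : 2 * Real.pi * I * (∑ j ∈ poleSet a b α θ,
        -(f ((((j : ℝ) - θ) / α : ℝ) : ℂ)) / (α * (2 * Real.pi * I))) =
        -(1 / α : ℂ) * (∑ j ∈ poleSet a b α θ, f (((j - θ) / α : ℝ) : ℂ)) := by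
      rw [Finset.mul_sum, Finset.mul_sum]
      refine Finset.sum_congr rfl fun j _ => ?_
      have hα' : (α : ℂ) ≠ 0 := by exact_mod_cast hα.ne'
      have hpi : (Real.pi : ℂ) ≠ 0 := by exact_mod_cast Real.pi_ne_zero
      have hI := I_ne_zero
      field_simp
    rw [e1] at key
    exact key
  · intro x hx
    obtain ⟨j, hj, rfl⟩ := Finset.mem_image.mp hx
    exact (pole_mem hα).mp hj
  · intro z h1 h2 h3
    refine kq_diff hα (hf z h1 h2) fun n hn => ?_
    have hz : z.re = (n - θ) / α := by rw [hn]; simp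
    refine h3 ((n - θ) / α) (Finset.mem_image.mpr ⟨n, ?_, rfl⟩) hn
    rw [mem_poleSet]
    rw [hz] at h1 h2
    rw [le_div_iff₀ hα] at h1
    rw [div_le_iff₀ hα] at h2
    constructor
    · exact lt_of_le_of_ne (by linarith) (ha n)
    · exact lt_of_le_of_ne (by linarith) (hb n).symm
  · intro x hx
    obtain ⟨j, hj, rfl⟩ := Finset.mem_image.mp hx
    have h4 := (pole_mem hα).mp hj
    refine kq_spole hα ?_
    have hS : IsOpen {z : ℂ | a < z.re ∧ z.re < b} :=
      (isOpen_lt continuous_const continuous_re).inter (isOpen_lt continuous_re continuous_const)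
    have h5 : DifferentiableOn ℂ f {z : ℂ | a < z.re ∧ z.re < b} :=
      fun z hz => (hf z hz.1.le hz.2.le).differentiableWithinAt
    exact h5.analyticAt (hS.mem_nhds (by simpa using h4))

/-- **Contour shift, summed over the components** (`σ` = permutation of the components induced by
the shift, `F` = integrand of the beta integral). -/
theorem shift_sum {ι : Type*} [Fintype ι] (σ : Equiv.Perm ι) {f F : ι → ℂ → ℂ} {θ : ι → ℝ}
    {a b α : ℝ} {K : ℂ} (hab : a ≤ b) (hα : 0 < α)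
    (ha : ∀ i, ∀ n : ℤ, α * a + θ i ≠ n) (hb : ∀ i, ∀ n : ℤ, α * b + θ i ≠ n)
    (hf : ∀ i, ∀ z : ℂ, a ≤ z.re → z.re ≤ b → DifferentiableAt ℂ (f i) z) {Lp Lm : ι → ℂ}
    (hp : ∀ i, Lim (kq (f i) α (θ i)) a b 1 (Lp i))
    (hm : ∀ i, Lim (kq (f i) α (θ i)) a b (-1) (Lm i))
    (hF : ∀ i, ∀ y : ℝ, kq (f (σ i)) α (θ (σ i)) (b + y * I) - kq (f i) α (θ i) (a + y * I) =
      K * F i (a + y * I))
    (hFi : ∀ i, Integrable fun y : ℝ => F i (a + y * I)) :
    K * (I * ∑ i, ∫ y : ℝ, F i (a + y * I)) =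
      -(1 / α : ℂ) * (∑ i, ∑ j ∈ poleSet a b α (θ i), f i (((j - θ i) / α : ℝ) : ℂ)) +
        ((b - a : ℝ) : ℂ) * ∑ i, (Lp i - Lm i) := by
  classical
  have h1 := tendsto_finsetSum Finset.univ fun i _ =>
    strip_ee hab hα (ha i) (hb i) (hf i) (hp i) (hm i)
  rw [Finset.sum_add_distrib, ← Finset.mul_sum, ← Finset.mul_sum] at h1
  have hca : ∀ i, Continuous fun y : ℝ => kq (f i) α (θ i) (a + y * I) := fun i =>
    cont_vert fun z hz => by
      refine kq_diff hα (hf i z (by rw [hz]) (by rw [hz]; exact hab)) fun n hn => ?_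
      rw [hn, ofReal_re, div_eq_iff hα.ne'] at hz
      exact ha i n (by linarith)
  have hcb : ∀ i, Continuous fun y : ℝ => kq (f i) α (θ i) (b + y * I) := fun i =>
    cont_vert fun z hz => by
      refine kq_diff hα (hf i z (by rw [hz]; exact hab) (by rw [hz])) fun n hn => ?_
      rw [hn, ofReal_re, div_eq_iff hα.ne'] at hz
      exact hb i n (by linarith)
  have h2 : ∀ R : ℝ, (∑ i, I * ∫ y in (-R)..R,
      (kq (f i) α (θ i) (b + y * I) - kq (f i) α (θ i) (a + y * I))) =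
      K * (I * ∑ i, ∫ y in (-R)..R, F i (a + y * I)) := by
    intro R
    have e1 : ∀ i, (∫ y in (-R)..R,
        (kq (f i) α (θ i) (b + y * I) - kq (f i) α (θ i) (a + y * I))) =
        (∫ y in (-R)..R, kq (f i) α (θ i) (b + y * I)) -
          ∫ y in (-R)..R, kq (f i) α (θ i) (a + y * I) := fun i =>
      intervalIntegral.integral_sub ((hcb i).intervalIntegrable _ _)
        ((hca i).intervalIntegrable _ _)
    have e2 : ∀ i, K * (∫ y in (-R)..R, F i (a + y * I)) =
        (∫ y in (-R)..R, kq (f (σ i)) α (θ (σ i)) (b + y * I)) -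
          ∫ y in (-R)..R, kq (f i) α (θ i) (a + y * I) := by
      intro i
      rw [← intervalIntegral.integral_const_mul, ← intervalIntegral.integral_sub
        ((hcb (σ i)).intervalIntegrable _ _) ((hca i).intervalIntegrable _ _)]
      exact intervalIntegral.integral_congr fun y _ => (hF i y).symm
    rw [← Finset.mul_sum]
    simp_rw [e1]
    rw [Finset.sum_sub_distrib]
    have e3 : K * (∑ i, ∫ y in (-R)..R, F i (a + y * I)) =
        (∑ i, ∫ y in (-R)..R, kq (f i) α (θ i) (b + y * I)) -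
          ∑ i, ∫ y in (-R)..R, kq (f i) α (θ i) (a + y * I) := by
      rw [Finset.mul_sum]
      simp_rw [e2]
      rw [Finset.sum_sub_distrib]
      congr 1
      exact Equiv.sum_comp σ fun i => ∫ y in (-R)..R, kq (f i) α (θ i) (b + y * I)
    rw [← e3]
    ring
  simp_rw [h2] at h1
  have h3 : Tendsto (fun R : ℝ => K * (I * ∑ i, ∫ y in (-R)..R, F i (a + y * I))) atTop
      (𝓝 (K * (I * ∑ i, ∫ y : ℝ, F i (a + y * I)))) := by
    refine Tendsto.const_mul K (Tendsto.const_mul I (tendsto_finsetSum _ fun i _ => ?_))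
    exact intervalIntegral_tendsto_integral (hFi i) tendsto_neg_atTop_atBot tendsto_id
  exact tendsto_nhds_unique h3 h1

end Pool.MP_d0f9e0_co.AN9
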