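import Pool.Agent.Lib.MP_d0f9e0_co.AN.Defs
import Pool.Agent.Lib.MP_d0f9e0_co.AN9.Strip

set_option autoImplicit false

/-!
AN9/Limits (helper9, Project Z, MP_d0f9e0_co): holomorphy of the continued `1/E` (`Rinv`) and the
limits at both ends of the strip of the function of THEOREM S (row R5 of helper19's note 9463).
-/

open Complex MeasureTheory Filter Topology Set

namespace Pool.MP_d0f9e0_co.AN9

open Pool.MP_d0f9e0_co.CS
open Pool.Agent.Lib.MP_d0f9e0_co.AN

theorem ee_norm (z : ℂ) : ‖ee z‖ = Real.exp (-(2 * Real.pi * z.im)) := by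
  unfold ee
  rw [Complex.norm_exp]
  congr 1
  simp

theorem ee_ne (z : ℂ) : ee z ≠ 0 := Complex.exp_ne_zero _

/-! ### Calculus of `Lim` -/

/-- The filter of a strip end. -/
def SF (a b s : ℝ) : Filter ℂ :=
  comap (fun z : ℂ => s * z.im) atTop ⊓ 𝓟 {z : ℂ | a ≤ z.re ∧ z.re ≤ b}

theorem SF_basis {a b s : ℝ} {p : ℂ → Prop} : (∀ᶠ z in SF a b s, p z) ↔
    ∃ Y : ℝ, ∀ z : ℂ, a ≤ z.re → z.re ≤ b → Y ≤ s * z.im → p z := by
  unfold SF
  rw [eventually_inf_principal, eventually_comap, eventually_atTop]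
  constructor
  · rintro ⟨Y, hY⟩
    exact ⟨Y, fun z h1 h2 h3 => hY _ h3 z rfl ⟨h1, h2⟩⟩
  · rintro ⟨Y, hY⟩
    exact ⟨Y, fun t ht z hz h => hY z h.1 h.2 (by rw [hz]; exact ht)⟩

theorem lim_iff {φ : ℂ → ℂ} {a b s : ℝ} {L : ℂ} (hs : s * s = 1) :
    Lim φ a b s L ↔ Tendsto φ (SF a b s) (𝓝 L) := by
  rw [Metric.tendsto_nhds]
  constructor
  · intro h ε hε
    rw [SF_basis]
    obtain ⟨Y, hY⟩ := h (ε / 2) (by linarith)
    refine ⟨Y, fun z h1 h2 h3 => ?_⟩
    have h4 := hY z.re (s * z.im) h1 h2 h3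
    have e1 : (z.re : ℂ) + ((s * (s * z.im) : ℝ) : ℂ) * I = z := by
      rw [← mul_assoc, hs, one_mul]; exact re_add_im z
    rw [e1] at h4
    rw [dist_eq_norm]
    linarith
  · intro h ε hε
    obtain ⟨Y, hY⟩ := SF_basis.mp (h ε hε)
    refine ⟨Y, fun x y h1 h2 h3 => ?_⟩
    have h4 := hY (x + ((s * y : ℝ) : ℂ) * I) (by simpa using h1) (by simpa using h2)
      (by simp; rw [← mul_assoc, hs, one_mul]; exact h3)
    rw [dist_eq_norm] at h4
    exact h4.le

theorem SF_union {a m b s : ℝ} : SF a b s ≤ SF a m s ⊔ SF m b s := by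
  unfold SF
  rw [← inf_sup_left, sup_principal]
  refine inf_le_inf_left _ (principal_mono.mpr fun z hz => ?_)
  rcases le_total z.re m with h | h
  · exact Or.inl ⟨hz.1, h⟩
  · exact Or.inr ⟨h, hz.2⟩

theorem SF_mono {a b a' b' s : ℝ} (h1 : a' ≤ a) (h2 : b ≤ b') : SF a b s ≤ SF a' b' s :=
  inf_le_inf_left _ (principal_mono.mpr fun _ hz => ⟨h1.trans hz.1, hz.2.trans h2⟩)

theorem SF_shift {a b s : ℝ} (t : ℝ) :
    Tendsto (fun z : ℂ => z + t) (SF a b s) (SF (a + t) (b + t) s) := by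
  rw [Filter.tendsto_def]
  intro S hS
  have h1 : ∀ᶠ z in SF (a + t) (b + t) s, z ∈ S := hS
  rw [SF_basis] at h1
  obtain ⟨Y, hY⟩ := h1
  have h2 : ∀ᶠ z in SF a b s, z + (t : ℂ) ∈ S := by
    rw [SF_basis]
    refine ⟨Y, fun z h1 h2 h3 => hY _ ?_ ?_ ?_⟩
    · simpa using h1
    · simpa using h2
    · simpa using h3
  exact h2

theorem SF_refl {a b s : ℝ} (t : ℝ) :
    Tendsto (fun z : ℂ => t - z) (SF a b s) (SF (t - b) (t - a) (-s)) := by
  rw [Filter.tendsto_def]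
  intro S hS
  have h1 : ∀ᶠ z in SF (t - b) (t - a) (-s), z ∈ S := hS
  rw [SF_basis] at h1
  obtain ⟨Y, hY⟩ := h1
  have h2 : ∀ᶠ z in SF a b s, (t : ℂ) - z ∈ S := by
    rw [SF_basis]
    refine ⟨Y, fun z h1 h2 h3 => hY _ ?_ ?_ ?_⟩
    · simp; linarith
    · simp; linarith
    · simpa using h3
  exact h2

/-- `e(κ z + μ) → 0` at the end `s` when `s κ > 0`. -/
theorem ee_lim {a b s κ : ℝ} (hs : s * s = 1) (hκ : 0 < s * κ) (μ : ℂ) :
    Tendsto (fun z : ℂ => ee (κ * z + μ)) (SF a b s) (𝓝 0) := by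
  rw [tendsto_zero_iff_norm_tendsto_zero]
  have e1 : ∀ z : ℂ, ‖ee (κ * z + μ)‖ =
      Real.exp (-(2 * Real.pi * (s * κ)) * (s * z.im) + -(2 * Real.pi * μ.im)) := by
    intro z
    rw [ee_norm]
    congr 1
    simp
    linear_combination (2 * Real.pi * κ * z.im) * hs
  simp_rw [e1]
  refine Real.tendsto_exp_atBot.comp ?_
  refine tendsto_atBot_add_const_right _ _ ?_
  have h1 : Tendsto (fun z : ℂ => s * z.im) (SF a b s) atTop :=
    (tendsto_comap).mono_left inf_le_left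
  exact h1.const_mul_atTop_of_neg (by have := Real.pi_pos; nlinarith)

/-- `1 / (1 - e(κ z + μ)) → 1` at the end where `e(κ z + μ) → 0`. -/
theorem ker_lim {a b s κ : ℝ} (hs : s * s = 1) (hκ : 0 < s * κ) (μ : ℂ) :
    Tendsto (fun z : ℂ => (1 - ee (κ * z + μ))⁻¹) (SF a b s) (𝓝 1) := by
  have h1 := (tendsto_const_nhds (x := (1:ℂ)) (f := SF a b s)).sub (ee_lim hs hκ μ)
  rw [sub_zero] at h1
  simpa using h1.inv₀ one_ne_zero

/-! ### The function `E` of `LC` -/

variable {c : ℕ} {a d : ℤ} {η : ℝ} {E : ℂ → ℤ → ℂ}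

theorem isOpen_vstrip (α β : ℝ) : IsOpen {z : ℂ | α < z.re ∧ z.re < β} :=
  (isOpen_lt continuous_const continuous_re).inter (isOpen_lt continuous_re continuous_const)

theorem E_diff (h : LC c a d η E) {z : ℂ} {m : ℤ} (h1 : -1 / (c : ℝ) < z.re) (h2 : z.re < η / c) :
    DifferentiableAt ℂ (fun z => E z m) z :=
  (h.diff m).differentiableAt ((isOpen_vstrip _ _).mem_nhds ⟨h1, h2⟩)

theorem E_top (h : LC c a d η E) (m : ℤ) {α β : ℝ} (h1 : -1 / (c : ℝ) < α) (h2 : β < η / c) :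
    Tendsto (fun z => E z m) (SF α β 1) (𝓝 1) := by
  obtain ⟨C, ε, hε, hb⟩ := h.top m α β h1 h2
  have h3 : Tendsto (fun z : ℂ => C * Real.exp (-ε * z.im)) (SF α β 1) (𝓝 0) := by
    have h4 : Tendsto (fun z : ℂ => -ε * z.im) (SF α β 1) atBot := by
      have h5 : Tendsto (fun z : ℂ => (1:ℝ) * z.im) (SF α β 1) atTop :=
        (tendsto_comap).mono_left inf_le_left
      simp only [one_mul] at h5
      exact h5.const_mul_atTop_of_neg (by linarith)
    have h6 := (Real.tendsto_exp_atBot.comp h4).const_mul C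
    simpa using h6
  rw [tendsto_iff_norm_sub_tendsto_zero]
  refine squeeze_zero' (Eventually.of_forall fun _ => norm_nonneg _) ?_ h3
  rw [SF_basis]
  exact ⟨0, fun z h1 h2 h3 => hb z h1 h2 (by simpa using h3)⟩

theorem c_pos' (h : LC c a d η E) : (0:ℝ) < c := by exact_mod_cast h.c_pos

theorem ker_ne (h : LC c a d η E) {w : ℂ} {m : ℤ} (h1 : -1 / (c : ℝ) < w.re) (h2 : w.re < 0) :
    1 - ee (w + d * m / c) ≠ 0 := by
  intro h0
  have hc := c_pos' h
  obtain ⟨n, hn⟩ := ee_eq_one (sub_eq_zero.mp h0).symm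
  have h3 := congrArg re hn
  have h4 : (w + (d:ℂ) * m / c).re = w.re + d * m / c := by
    have : ((d:ℂ) * m / c) = (((d:ℝ) * m / c : ℝ) : ℂ) := by push_cast; ring
    rw [add_re, this, ofReal_re]
  rw [h4, intCast_re] at h3
  have h5 : w.re * c = n * c - d * m := by
    field_simp at h3
    linarith
  have h6 : (-1:ℝ) < w.re * c := by
    rw [div_lt_iff₀ hc] at h1; exact h1
  have h7 : w.re * c < 0 := mul_neg_of_neg_of_pos h2 hc
  rw [h5] at h6 h7
  have h8 : (-1 : ℤ) < n * c - d * m := by exact_mod_cast h6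
  have h9 : n * c - d * m < (0 : ℤ) := by exact_mod_cast h7
  omega

/-- `Rinv = 1/E` on the whole natural strip. -/
theorem Rinv_eq1 (h : LC c a d η E) {w : ℂ} {m : ℤ} (h1 : -1 / (c : ℝ) < w.re) :
    Rinv E η c d w m = 1 / E w m := by
  unfold Rinv
  split_ifs with h0
  · rfl
  · rw [not_le] at h0
    have hk := ker_ne h (m := m) h1 h0
    rw [h.s2 w m h1 h0]
    have hc := c_pos' h
    have hη := h.one_lt
    have hE := h.ne w m h1 (lt_trans h0 (by positivity))
    field_simp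

theorem Rinv_eq2 {w : ℂ} {m : ℤ} (h1 : w.re < 0) :
    Rinv E η c d w m = (1 - ee (w + d * m / c)) / E (w + η / c) (m - 1) := by
  unfold Rinv
  rw [if_neg (not_le.mpr h1)]

theorem Rinv_diff (h : LC c a d η E) {w : ℂ} {m : ℤ} (h1 : -((1 + η) / c) < w.re)
    (h2 : w.re < η / c) : DifferentiableAt ℂ (fun w => Rinv E η c d w m) w := by
  have hc := c_pos' h
  have hη := h.one_lt
  rcases lt_or_ge (-1 / (c : ℝ)) w.re with h3 | h3
  · have h4 : DifferentiableAt ℂ (fun w => 1 / E w m) w :=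
      (differentiableAt_const _).div (E_diff h h3 h2) (h.ne w m h3 h2)
    refine h4.congr_of_eventuallyEq ?_
    filter_upwards [(isOpen_lt continuous_const continuous_re).mem_nhds h3] with z hz
    exact Rinv_eq1 h hz
  · have hneg : -1 / (c : ℝ) < 0 := by
      rw [neg_div]; simp only [Left.neg_neg_iff]; positivity
    have h0 : w.re < 0 := lt_of_le_of_lt h3 hneg
    have e1 : ∀ z : ℂ, (z + (η : ℂ) / c).re = z.re + η / c := by
      intro z
      have : ((η : ℂ) / c) = ((η / c : ℝ) : ℂ) := by push_cast; ring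
      rw [add_re, this, ofReal_re]
    have h5 : -1 / (c : ℝ) < (w + (η : ℂ) / c).re := by
      rw [e1]
      have : (1 + η) / (c:ℝ) = 1 / c + η / c := by ring
      rw [this] at h1
      have : -1 / (c : ℝ) = -(1 / c) := by ring
      linarith
    have h6 : (w + (η : ℂ) / c).re < η / c := by rw [e1]; linarith
    have h4 : DifferentiableAt ℂ
        (fun w => (1 - ee (w + d * m / c)) / E (w + η / c) (m - 1)) w := by
      refine DifferentiableAt.div ?_ ?_ (h.ne _ _ h5 h6)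
      · exact (differentiableAt_const _).sub ((ee_differentiable _).comp w (by fun_prop))
      · exact DifferentiableAt.comp (g := fun z => E z (m - 1)) (f := fun w : ℂ => w + (η : ℂ) / c) w
          (E_diff h h5 h6) (by fun_prop)
    refine h4.congr_of_eventuallyEq ?_
    filter_upwards [(isOpen_lt continuous_re continuous_const).mem_nhds h0] with z hz
    exact Rinv_eq2 hz

theorem Rinv_top (h : LC c a d η E) (m : ℤ) {α β : ℝ} (h1 : -((1 + η) / c) < α)
    (h2 : β < η / c) : Tendsto (fun w => Rinv E η c d w m) (SF α β 1) (𝓝 1) := by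
  have hc := c_pos' h
  have hη := h.one_lt
  have hneg : -1 / (c : ℝ) < -(1 / (2 * c)) := by
    rw [neg_div, neg_lt_neg_iff]
    exact one_div_lt_one_div_of_lt hc (by linarith)
  have hneg2 : -(1 / (2 * (c:ℝ))) < 0 := by
    simp only [Left.neg_neg_iff]; positivity
  refine Tendsto.mono_left ?_ (SF_union (m := -(1 / (2 * c))))
  refine Tendsto.sup ?_ ?_
  · -- left part
    have h3 : Tendsto (fun w : ℂ => w + ((η / c : ℝ) : ℂ)) (SF α (-(1 / (2 * c))) 1)
        (SF (α + η / c) (-(1 / (2 * c)) + η / c) 1) := SF_shift _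
    have h4 := (E_top h (m - 1) (α := α + η / c) (β := -(1 / (2 * c)) + η / c) (by
      have e1 : (1 + η) / (c:ℝ) = 1 / c + η / c := by ring
      have e2 : -1 / (c : ℝ) = -(1 / c) := by ring
      rw [e1] at h1; linarith) (by linarith)).comp h3
    have h5 := (tendsto_const_nhds (x := (1:ℂ)) (f := SF α (-(1 / (2 * c))) 1)).sub
      (ee_lim (κ := 1) (a := α) (b := -(1 / (2 * c))) (s := 1) (by norm_num) (by norm_num)
        ((d:ℂ) * m / c))
    have h6 := h5.div h4 one_ne_zero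
    rw [sub_zero, div_one] at h6
    refine h6.congr' ?_
    rw [Filter.EventuallyEq, SF_basis]
    refine ⟨0, fun z _ hz _ => ?_⟩
    rw [Rinv_eq2 (lt_of_le_of_lt hz hneg2)]
    simp
  · have h3 := (E_top h m (α := -(1 / (2 * c))) (β := β) hneg h2).inv₀ one_ne_zero
    rw [inv_one] at h3
    refine h3.congr' ?_
    rw [Filter.EventuallyEq, SF_basis]
    refine ⟨0, fun z hz _ _ => ?_⟩
    rw [Rinv_eq1 h (lt_of_lt_of_le hneg hz), one_div]

/-- Eventually bounded at a strip end. -/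
def Bd (φ : ℂ → ℂ) (F : Filter ℂ) : Prop := ∃ C : ℝ, ∀ᶠ z in F, ‖φ z‖ ≤ C

theorem Bd.of_tendsto {φ : ℂ → ℂ} {F : Filter ℂ} {L : ℂ} (h : Tendsto φ F (𝓝 L)) : Bd φ F := by
  refine ⟨‖L‖ + 1, ?_⟩
  have h1 := h.norm.eventually (gt_mem_nhds (by linarith : ‖L‖ < ‖L‖ + 1))
  exact h1.mono fun z hz => hz.le

theorem Bd.mul {φ ψ : ℂ → ℂ} {F : Filter ℂ} (h1 : Bd φ F) (h2 : Bd ψ F) :
    Bd (fun z => φ z * ψ z) F := by
  obtain ⟨C, hC⟩ := h1
  obtain ⟨D, hD⟩ := h2
  refine ⟨|C| * |D|, ?_⟩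
  filter_upwards [hC, hD] with z h1 h2
  rw [norm_mul]
  exact mul_le_mul (h1.trans (le_abs_self _)) (h2.trans (le_abs_self _)) (norm_nonneg _)
    (abs_nonneg _)

theorem Bd.tendsto_mul {φ ψ : ℂ → ℂ} {F : Filter ℂ} (h1 : Bd φ F) (h2 : Tendsto ψ F (𝓝 0)) :
    Tendsto (fun z => φ z * ψ z) F (𝓝 0) := by
  obtain ⟨C, hC⟩ := h1
  rw [tendsto_zero_iff_norm_tendsto_zero]
  have h3 := h2.norm.const_mul |C|
  rw [norm_zero, mul_zero] at h3
  refine squeeze_zero' (Eventually.of_forall fun _ => norm_nonneg _) ?_ h3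
  filter_upwards [hC] with z hz
  rw [norm_mul]
  exact mul_le_mul_of_nonneg_right (hz.trans (le_abs_self _)) (norm_nonneg _)

theorem Bd.sup {φ : ℂ → ℂ} {F G : Filter ℂ} (h1 : Bd φ F) (h2 : Bd φ G) : Bd φ (F ⊔ G) := by
  obtain ⟨C, hC⟩ := h1
  obtain ⟨D, hD⟩ := h2
  refine ⟨max C D, ?_⟩
  rw [eventually_sup]
  exact ⟨hC.mono fun z h => h.trans (le_max_left _ _), hD.mono fun z h => h.trans (le_max_right _ _)⟩

theorem Bd.mono {φ : ℂ → ℂ} {F G : Filter ℂ} (h1 : Bd φ F) (h2 : G ≤ F) : Bd φ G := by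
  obtain ⟨C, hC⟩ := h1
  exact ⟨C, h2 hC⟩

theorem Bd.congr {φ ψ : ℂ → ℂ} {F : Filter ℂ} (h1 : Bd φ F) (h2 : ∀ᶠ z in F, ψ z = φ z) :
    Bd ψ F := by
  obtain ⟨C, hC⟩ := h1
  refine ⟨C, ?_⟩
  filter_upwards [hC, h2] with z h3 h4
  rw [h4]; exact h3

/-- The Gaussian of `LC.refl`. -/
noncomputable def qg (c : ℕ) (η : ℝ) (z : ℂ) : ℂ :=
  Complex.exp (Real.pi * I * (c * z ^ 2 - (η - 1) * z) / η)

theorem qg_ne (z : ℂ) : qg c η z ≠ 0 := Complex.exp_ne_zero _

/-- `E / qg` has a nonzero limit at the lower end. -/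
theorem E_bot (h : LC c a d η E) (m : ℤ) {α β : ℝ} (h1 : -1 / (c : ℝ) < α) (h2 : β < η / c) :
    ∃ K : ℂ, K ≠ 0 ∧ Tendsto (fun z => E z m / qg c η z) (SF α β (-1)) (𝓝 K) := by
  obtain ⟨K, hK1, hK⟩ := h.refl
  have hc := c_pos' h
  refine ⟨K m, fun h0 => by have := hK1 m; rw [h0] at this; simp at this, ?_⟩
  have h3 : Tendsto (fun z : ℂ => (((η - 1) / c : ℝ) : ℂ) - z) (SF α β (-1))
      (SF ((η - 1) / c - β) ((η - 1) / c - α) (- -1)) := SF_refl _
  rw [neg_neg] at h3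
  have e0 : (η - 1) / (c:ℝ) = η / c + -1 / c := by ring
  have h4 := ((E_top h (a - 1 - m) (α := (η - 1) / c - β) (β := (η - 1) / c - α)
    (by rw [e0]; linarith) (by rw [e0]; linarith)).comp h3).inv₀ one_ne_zero
  have h5 := h4.const_mul (K m)
  rw [inv_one, mul_one] at h5
  refine h5.congr' ?_
  rw [Filter.EventuallyEq, SF_basis]
  refine ⟨0, fun z hz1 hz2 _ => ?_⟩
  have h6 := hK z m (lt_of_lt_of_le h1 hz1) (lt_of_le_of_lt hz2 h2)
  simp only [Function.comp_apply]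
  have e1 : (((η - 1) / c : ℝ) : ℂ) - z = (η - 1) / c - z := by push_cast; ring
  rw [e1]
  have hE : E ((η - 1) / c - z) (a - 1 - m) ≠ 0 := by
    rw [← e1]
    refine h.ne _ _ ?_ ?_
    · simp only [sub_re, ofReal_re]; rw [e0]; linarith
    · simp only [sub_re, ofReal_re]; rw [e0]; linarith
  have hq : Complex.exp (Real.pi * I * (c * z ^ 2 - (η - 1) * z) / η) ≠ 0 := Complex.exp_ne_zero _
  unfold qg
  rw [eq_div_iff hq, ← div_eq_mul_inv, div_mul_eq_mul_div, div_eq_iff hE]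
  exact h6.symm

theorem Rinv_bot (h : LC c a d η E) (m : ℤ) {α β : ℝ} (h1 : -((1 + η) / c) < α)
    (h2 : β < η / c) : Bd (fun w => Rinv E η c d w m * qg c η w) (SF α β (-1)) := by
  have hc := c_pos' h
  have hη := h.one_lt
  have hcc : (c:ℂ) ≠ 0 := by exact_mod_cast hc.ne'
  have hηη : (η:ℂ) ≠ 0 := by
    have : η ≠ 0 := by linarith
    exact_mod_cast this
  have hneg : -1 / (c : ℝ) < -(1 / (2 * c)) := by
    rw [neg_div, neg_lt_neg_iff]
    exact one_div_lt_one_div_of_lt hc (by linarith)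
  have hneg2 : -(1 / (2 * (c:ℝ))) < 0 := by
    simp only [Left.neg_neg_iff]; positivity
  refine Bd.mono ?_ (SF_union (m := -(1 / (2 * c))))
  refine Bd.sup ?_ ?_
  · have h3 : Tendsto (fun w : ℂ => w + ((η / c : ℝ) : ℂ)) (SF α (-(1 / (2 * c))) (-1))
        (SF (α + η / c) (-(1 / (2 * c)) + η / c) (-1)) := SF_shift _
    obtain ⟨K, hK0, hK⟩ := E_bot h (m - 1) (α := α + η / c) (β := -(1 / (2 * c)) + η / c) (by
      have e1 : (1 + η) / (c:ℝ) = 1 / c + η / c := by ring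
      have e2 : -1 / (c : ℝ) = -(1 / c) := by ring
      rw [e1] at h1; linarith) (by linarith)
    have h4 := (hK.comp h3).inv₀ hK0
    -- `(1 - e(w + dm/c)) e(-w) → - e(dm/c)`
    have h5 : Tendsto (fun w : ℂ => ee (((-1 : ℝ) : ℂ) * w + 0) - ee ((d:ℂ) * m / c))
        (SF α (-(1 / (2 * c))) (-1)) (𝓝 (0 - ee ((d:ℂ) * m / c))) :=
      (ee_lim (κ := -1) (by norm_num) (by norm_num) 0).sub tendsto_const_nhds
    have h6 := (h5.mul h4).const_mul (Complex.exp (-(Real.pi * I / c)))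
    refine (Bd.of_tendsto h6).congr ?_
    rw [SF_basis]
    refine ⟨0, fun z hz1 hz2 _ => ?_⟩
    rw [Rinv_eq2 (lt_of_le_of_lt hz2 hneg2)]
    simp only [Function.comp_apply]
    have e3 : z + ((η / c : ℝ) : ℂ) = z + η / c := by push_cast; ring
    rw [e3, inv_div]
    have e4 : (ee (((-1 : ℝ) : ℂ) * z + 0) - ee ((d:ℂ) * m / c)) =
        ee (-z) * (1 - ee (z + d * m / c)) := by
      rw [mul_sub, mul_one, ← ee_add]
      congr 2
      · push_cast; ring
      · ring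
    have e5 : qg c η (z + η / c) = qg c η z * ee z * Complex.exp (Real.pi * I / c) := by
      unfold qg ee
      rw [← Complex.exp_add, ← Complex.exp_add]
      congr 1
      field_simp
      ring
    rw [e4, e5]
    have e6 : ee (-z) * ee z = 1 := by rw [← ee_add]; simp [ee_zero]
    have e7 : Complex.exp (-(Real.pi * I / c)) * Complex.exp (Real.pi * I / c) = 1 := by
      rw [← Complex.exp_add]; simp
    rw [div_mul_eq_mul_div]
    rw [show Complex.exp (-(Real.pi * I / c)) * (ee (-z) * (1 - ee (z + d * m / c)) *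
      (qg c η z * ee z * Complex.exp (Real.pi * I / c) / E (z + η / c) (m - 1))) =
      (Complex.exp (-(Real.pi * I / c)) * Complex.exp (Real.pi * I / c)) * (ee (-z) * ee z) *
      ((1 - ee (z + d * m / c)) * qg c η z) / E (z + η / c) (m - 1) by ring, e6, e7]
    ring
  · obtain ⟨K, hK0, hK⟩ := E_bot h m (α := -(1 / (2 * c))) (β := β) hneg h2
    have h3 := hK.inv₀ hK0
    refine (Bd.of_tendsto h3).congr ?_
    rw [SF_basis]
    refine ⟨0, fun z hz _ _ => ?_⟩
    rw [Rinv_eq1 h (lt_of_lt_of_le hneg hz), inv_div, one_div, inv_mul_eq_div]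

/-! ### The function of THEOREM S -/

/-- `f(z, m) = E(z,m) / E(z - zp, m - mp) * ψ(z, m; zy, my)`. -/
noncomputable def fS (E : ℂ → ℤ → ℂ) (η : ℝ) (c : ℕ) (d : ℤ) (zp : ℝ) (mp : ℤ) (zy : ℝ) (my : ℤ)
    (m : ℤ) (z : ℂ) : ℂ :=
  E z m * Rinv E η c d (z - zp) (m - mp) * psi η c d z m zy my

theorem fS_diff (h : LC c a d η E) {zp zy : ℝ} {mp my m : ℤ} {z : ℂ} (h1 : -1 / (c : ℝ) < z.re)
    (h2 : z.re < η / c) (h3 : zp < z.re + (1 + η) / c) (h4 : z.re - zp < η / c) :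
    DifferentiableAt ℂ (fS E η c d zp mp zy my m) z := by
  unfold fS psi
  refine ((E_diff h h1 h2).mul ?_).mul ?_
  · exact DifferentiableAt.comp (g := fun w => Rinv E η c d w (m - mp))
      (f := fun z : ℂ => z - (zp : ℂ)) z
      (Rinv_diff h (by simp; linarith) (by simp; linarith)) (by fun_prop)
  · exact (ee_differentiable _).comp z (by fun_prop)

/-- Upper limit. -/
theorem fS_top (h : LC c a d η E) {zp zy α β κ : ℝ} {mp my m : ℤ} (h1 : -1 / (c : ℝ) < α)
    (h2 : β < η / c) (h3 : zp < α + (1 + η) / c) (h4 : β - zp < η / c) (hzy : 0 ≤ zy)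
    (hκ : 0 < κ) (θ : ℝ) :
    Lim (kq (fS E η c d zp mp zy my m) κ θ) α β 1
      (if zy = 0 then ee (-(d * m * my / c)) else 0) := by
  rw [lim_iff (by norm_num)]
  have hc := c_pos' h
  have hη := h.one_lt
  have t1 := E_top h m h1 h2
  have t2 : Tendsto (fun z : ℂ => Rinv E η c d (z - zp) (m - mp)) (SF α β 1) (𝓝 1) := by
    have e1 : Tendsto (fun z : ℂ => z + ((-zp : ℝ) : ℂ)) (SF α β 1)
        (SF (α + -zp) (β + -zp) 1) := SF_shift _
    have e2 := (Rinv_top h (m - mp) (α := α + -zp) (β := β + -zp) (by linarith)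
      (by linarith)).comp e1
    refine e2.congr fun z => ?_
    simp [sub_eq_add_neg]
  have t3 : Tendsto (fun z : ℂ => psi η c d z m zy my) (SF α β 1)
      (𝓝 (if zy = 0 then ee (-(d * m * my / c)) else 0)) := by
    unfold psi
    split_ifs with h0
    · rw [h0]
      simp only [ofReal_zero, mul_zero, zero_div, zero_sub]
      exact tendsto_const_nhds
    · have hzy' : 0 < zy := lt_of_le_of_ne hzy (Ne.symm h0)
      have e1 := ee_lim (a := α) (b := β) (s := 1) (κ := c * zy / η) (by norm_num)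
        (by rw [one_mul]; positivity) (-(d * m * my / c))
      refine e1.congr fun z => ?_
      congr 1
      push_cast
      ring
  have t4 := ker_lim (a := α) (b := β) (s := 1) (κ := κ) (by norm_num) (by linarith) (θ : ℂ)
  have t5 := ((t1.mul t2).mul t3).mul t4
  rw [one_mul, one_mul, mul_one] at t5
  refine t5.congr fun z => ?_
  unfold kq fS
  rw [div_eq_mul_inv]

/-- Lower limit. -/
theorem fS_bot (h : LC c a d η E) {zp zy α β κ : ℝ} {mp my m : ℤ} (h1 : -1 / (c : ℝ) < α)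
    (h2 : β < η / c) (h3 : zp < α + (1 + η) / c) (h4 : β - zp < η / c)
    (hκ : 0 < κ) (h5 : c * (zp + zy) / η < κ) (θ : ℝ) :
    Lim (kq (fS E η c d zp mp zy my m) κ θ) α β (-1) 0 := by
  rw [lim_iff (by norm_num)]
  have hc := c_pos' h
  have hη := h.one_lt
  have hηη : (η:ℂ) ≠ 0 := by
    have : η ≠ 0 := by linarith
    exact_mod_cast this
  obtain ⟨K, hK0, hK⟩ := E_bot h m h1 h2
  have b1 : Bd (fun z => E z m / qg c η z) (SF α β (-1)) := Bd.of_tendsto hK
  have b2 : Bd (fun z : ℂ => Rinv E η c d (z - zp) (m - mp) * qg c η (z - zp)) (SF α β (-1)) := by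
    have e1 : Tendsto (fun z : ℂ => z + ((-zp : ℝ) : ℂ)) (SF α β (-1))
        (SF (α + -zp) (β + -zp) (-1)) := SF_shift _
    obtain ⟨C, hC⟩ := Rinv_bot h (m - mp) (α := α + -zp) (β := β + -zp) (by linarith)
      (by linarith)
    refine ⟨C, ?_⟩
    have := e1.eventually hC
    filter_upwards [this] with z hz
    have e2 : z + ((-zp : ℝ) : ℂ) = z - zp := by push_cast; ring
    rw [e2] at hz
    exact hz
  -- the remaining factor
  set κ' : ℝ := c * (zp + zy) / η - κ with hκ'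
  have t1 := ee_lim (a := α) (b := β) (s := -1) (κ := κ') (by norm_num) (by linarith)
    (-(d * m * my / c) - θ : ℂ)
  have t2 : Tendsto (fun z : ℂ => (ee (((-κ : ℝ) : ℂ) * z + (-θ : ℂ)) - 1)⁻¹) (SF α β (-1))
      (𝓝 ((0 - 1)⁻¹)) :=
    ((ee_lim (a := α) (b := β) (s := -1) (κ := -κ) (by norm_num) (by linarith) (-θ : ℂ)).sub
      tendsto_const_nhds).inv₀ (by norm_num)
  have t3 := (t1.mul t2).const_mul
    (Complex.exp (-(Real.pi * I * (c * zp ^ 2 + (η - 1) * zp) / η)))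
  rw [zero_mul, mul_zero] at t3
  have t4 := (b1.mul b2).tendsto_mul t3
  refine t4.congr fun z => ?_
  unfold kq fS psi
  have hq1 := qg_ne (c := c) (η := η) z
  have e1 : ee (((-κ : ℝ) : ℂ) * z + (-θ : ℂ)) - 1 =
      ee (-(κ * z + θ)) * (1 - ee (κ * z + θ)) := by
    rw [mul_sub, mul_one, ← ee_add]
    have : (-((κ:ℂ) * z + θ) + (κ * z + θ)) = 0 := by ring
    rw [this, ee_zero]
    congr 2
    push_cast; ring
  have e2 : ee ((κ' : ℂ) * z + (-(d * m * my / c) - θ : ℂ)) =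
      ee (c * zp * z / η) * ee (c * z * zy / η - d * m * my / c) * ee (-(κ * z + θ)) := by
    rw [← ee_add, ← ee_add]
    congr 1
    rw [hκ']
    push_cast
    ring
  have e3 : qg c η (z - zp) * (ee (c * zp * z / η) *
      Complex.exp (-(Real.pi * I * (c * zp ^ 2 + (η - 1) * zp) / η))) = qg c η z := by
    unfold qg ee
    rw [← Complex.exp_add, ← Complex.exp_add]
    congr 1
    field_simp
    ring
  rw [e1, e2, mul_inv]
  have hee := ee_ne (-((κ:ℂ) * z + θ))
  have key : E z m / qg c η z * (Rinv E η c d (z - zp) (m - mp) * qg c η (z - zp)) *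
      (Complex.exp (-(Real.pi * I * (c * zp ^ 2 + (η - 1) * zp) / η)) *
        (ee (c * zp * z / η) * ee (c * z * zy / η - d * m * my / c) * ee (-(κ * z + θ)) *
          ((ee (-(κ * z + θ)))⁻¹ * (1 - ee (κ * z + θ))⁻¹))) =
      E z m * Rinv E η c d (z - zp) (m - mp) * ee (c * z * zy / η - d * m * my / c) *
        (1 - ee (κ * z + θ))⁻¹ * ((qg c η (z - zp) * (ee (c * zp * z / η) *
      Complex.exp (-(Real.pi * I * (c * zp ^ 2 + (η - 1) * zp) / η)))) / qg c η z) *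
        (ee (-(κ * z + θ)) * (ee (-(κ * z + θ)))⁻¹) := by ring
  refine key.trans ?_
  rw [e3, div_self hq1, mul_inv_cancel₀ hee, mul_one, mul_one, ← div_eq_mul_inv]

end Pool.MP_d0f9e0_co.AN9
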